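import Pool.Agent.H.MP_ce3b04_lc.C

set_option autoImplicit false

namespace Pool.Agent.Results.MP_ce3b04_lc.Full

open Pool.Agent.Lib.CX Pool.Agent.H.MP_ce3b04_lc

/-- SS-ORTH: an orthogonal system over a signature (list of arities); is it strongly sequential? -/
def SSOrth (a : {a : List ℕ × List (Tm × Tm) // Orth a.1 a.2}) : Prop := SS a.1.1 a.1.2

lemma np_exp {A : List Bool → Prop} (h : InNP A) : InEXP A := by
  obtain ⟨q, V, hV, h⟩ := h
  exact InEXP.of_allb (m := fun a => q.eval (size a)) (by fun_prop) (by fun_prop)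
    (V := fun p => p.2.any fun y => V (p.1, y)) (by fun_prop) fun a => by simp [h, mem_allb]

theorem result : EXPHard SSOrth ∧ NPHard SSOrth ∧
    (NPComplete SSOrth → ∀ A : List Bool → Prop, InEXP A → InNP A) := by
  have h : EXPHard SSOrth := ga_hard'.not.red ⟨fun a => ⟨(sig a.1.1 a.1.2, rules a.1.1 a.1.2), orth a.2.1 a.2.2⟩,
    PT.subtype (red_pt.comp PT.id.val) fun a => orth a.2.1 a.2.2, fun a => main a.2.1 a.2.2⟩
  exact ⟨h, fun A hA => h A (np_exp hA), fun h' A hA => h'.1.red (h A hA)⟩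

end Pool.Agent.Results.MP_ce3b04_lc.Full
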